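import Pool.Agent.H705.FP.Stm

/-! # Part LO2 (helper955; edited from `Pool/Agent/H404/RO/T_LOW.lean` of helper404) -/

set_option autoImplicit false

namespace Pool.Agent.H955.FP

open MeasureTheory ProbabilityTheory Filter Topology Finset
open Pool.Agent.H705 Pool.Agent.H705.FP

theorem log_tend : Tendsto (fun N : ℕ => Real.log (N : ℝ)) atTop atTop :=
  Real.tendsto_log_atTop.comp tendsto_natCast_atTop_atTop

theorem one_lt_of_log {N : ℕ} (h : 1 < Real.log (N : ℝ)) : (1 : ℝ) ≤ N := by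
  have h0 : N ≠ 0 := by
    rintro rfl
    rw [Nat.cast_zero, Real.log_zero] at h
    linarith
  exact_mod_cast Nat.one_le_iff_ne_zero.2 h0

/-- the main term -/
theorem ev_main {κ b b'' c D : ℝ} (hκ : 0 < κ) (hb : 0 ≤ b) (hc0 : 0 < c) (hcb : b'' < c * b)
    (hD : 1 ≤ D) : ∀ᶠ N : ℕ in atTop, ∀ t : ℝ, (N : ℝ) ≤ t → t ≤ Real.exp (D * N) →
      b'' * Real.log (Real.log t) ^ κ ≤ c * (b * Real.log N ^ κ) - 4 := by
  rcases lt_or_ge b'' 0 with h | h
  · have h1 : Tendsto (fun N : ℕ => b'' * Real.log (Real.log (N : ℝ)) ^ κ) atTop atBot :=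
      ((tendsto_rpow_atTop hκ).comp (Real.tendsto_log_atTop.comp log_tend)).const_mul_atTop_of_neg h
    filter_upwards [h1.eventually_le_atBot (-4), log_tend.eventually_gt_atTop 1] with N hN hN1 t ht1 ht2
    have hNp : (1 : ℝ) ≤ N := one_lt_of_log hN1
    have h2 : Real.log (N : ℝ) ≤ Real.log t := Real.log_le_log (by linarith) ht1
    have h3 : Real.log (Real.log (N : ℝ)) ≤ Real.log (Real.log t) :=
      Real.log_le_log (by linarith) h2
    have h4 : 0 ≤ Real.log (Real.log (N : ℝ)) := Real.log_nonneg hN1.le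
    have h5 : Real.log (Real.log (N : ℝ)) ^ κ ≤ Real.log (Real.log t) ^ κ :=
      Real.rpow_le_rpow h4 h3 hκ.le
    have h6 := mul_le_mul_of_nonpos_left h5 h.le
    have h7 : 0 ≤ c * (b * Real.log (N : ℝ) ^ κ) :=
      mul_nonneg hc0.le (mul_nonneg hb (Real.rpow_nonneg (by linarith) _))
    linarith
  · have hL : 0 ≤ Real.log D := Real.log_nonneg hD
    have h1 : Tendsto (fun y : ℝ => b'' * (1 + Real.log D / y) ^ κ + 4 / y ^ κ) atTop
        (𝓝 (b'' * (1 + 0) ^ κ + 0)) := by
      have h2 : Tendsto (fun y : ℝ => Real.log D / y) atTop (𝓝 0) :=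
        tendsto_const_nhds.div_atTop tendsto_id
      have h3 : Tendsto (fun y : ℝ => (1 + Real.log D / y) ^ κ) atTop (𝓝 ((1 + 0) ^ κ)) :=
        (tendsto_const_nhds.add h2).rpow_const (Or.inr hκ.le)
      exact (h3.const_mul b'').add (tendsto_const_nhds.div_atTop (tendsto_rpow_atTop hκ))
    rw [add_zero, add_zero, Real.one_rpow, mul_one] at h1
    filter_upwards [log_tend.eventually (h1.eventually_lt_const hcb),
      log_tend.eventually_gt_atTop 1] with N hN hN1 t ht1 ht2
    have hNp : (1 : ℝ) ≤ N := one_lt_of_log hN1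
    have hy : 0 < Real.log (N : ℝ) := by linarith
    have h2 : Real.log (N : ℝ) ≤ Real.log t := Real.log_le_log (by linarith) ht1
    have h3 : Real.log t ≤ D * N := (Real.log_le_iff_le_exp (by linarith)).2 ht2
    have h4 : Real.log (Real.log t) ≤ Real.log (N : ℝ) + Real.log D := by
      have h5 : Real.log (Real.log t) ≤ Real.log (D * N) := Real.log_le_log (by linarith) h3
      rw [Real.log_mul (by linarith) (by linarith)] at h5
      linarith
    have h5 : 0 ≤ Real.log (Real.log t) := Real.log_nonneg (by linarith)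
    have h6 : Real.log (Real.log t) ^ κ ≤ (Real.log (N : ℝ) + Real.log D) ^ κ :=
      Real.rpow_le_rpow h5 h4 hκ.le
    have h7 : (Real.log (N : ℝ) + Real.log D) ^ κ =
        (1 + Real.log D / Real.log (N : ℝ)) ^ κ * Real.log (N : ℝ) ^ κ := by
      rw [← Real.mul_rpow (by positivity) hy.le]
      congr 1
      field_simp
    have h8 : 0 < Real.log (N : ℝ) ^ κ := Real.rpow_pos_of_pos hy _
    have h9 := mul_lt_mul_of_pos_right hN h8
    have h10 : (b'' * (1 + Real.log D / Real.log (N : ℝ)) ^ κ + 4 / Real.log (N : ℝ) ^ κ) *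
        Real.log (N : ℝ) ^ κ = b'' * ((1 + Real.log D / Real.log (N : ℝ)) ^ κ *
          Real.log (N : ℝ) ^ κ) + 4 := by
      field_simp
    rw [h10, ← h7] at h9
    have h11 := mul_le_mul_of_nonneg_left h6 h
    have h12 : c * b * Real.log (N : ℝ) ^ κ = c * (b * Real.log (N : ℝ) ^ κ) := mul_assoc _ _ _
    linarith

theorem T_LO2 : P_LO2 := by
  intro S a σ κ b b'' ha H hκ hb hbb hfreq
  obtain ⟨c, hc0, hc1, hcb⟩ : ∃ c : ℝ, 0 < c ∧ c < 1 ∧ b'' < c * b := by
    rcases lt_or_ge b'' 0 with h | h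
    · have h1 : 0 ≤ 1 / 2 * b := by positivity
      exact ⟨1 / 2, by norm_num, by norm_num, by linarith⟩
    · have hb' : 0 < b := h.trans_lt hbb
      refine ⟨(b'' / b + 1) / 2, by positivity, ?_, ?_⟩
      · have h1 : b'' / b < 1 := (div_lt_one hb').2 hbb
        linarith
      · have h1 : (b'' / b + 1) / 2 * b = (b'' + b) / 2 := by
          field_simp
        rw [h1]
        linarith
  obtain ⟨D, hD, N₀, hH⟩ := H c hc0 hc1
  have hE := ev_main hκ hb hc0 hcb hD
  rw [Filter.frequently_atTop]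
  intro t₀
  obtain ⟨N, hN1, hN2, hN4, hN5⟩ := (hfreq.and_eventually (hE.and
    ((eventually_ge_atTop N₀).and (eventually_ge_atTop (max 1 ⌈t₀⌉₊))))).exists
  obtain ⟨t, ht1, ht2, ht3⟩ := hH N hN4
  have hNt : t₀ ≤ (N : ℝ) := (Nat.le_ceil t₀).trans (by exact_mod_cast (le_max_right _ _).trans hN5)
  refine ⟨t, hNt.trans ht1, ?_⟩
  have h1 := hN2 t ht1 ht2
  have h7 : c * (b * Real.log N ^ κ) ≤ c * RO.R a N := mul_le_mul_of_nonneg_left hN1 hc0.le
  linarith

end Pool.Agent.H955.FP
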